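import Pool.Agent.N455.HB.Chi2

/-!
Random sign expansion on the lattice from the finite case.
-/

namespace Pool.Agent.N455.HB

open MeasureTheory Filter Pool.Agent.W792.LL Pool.Agent.W792.WA Pool.Agent.N659.HB
open scoped Topology ENNReal

noncomputable section

variable {d : ℕ}

theorem ex0_norm (Λ : Finset (Fin d → ℤ)) (u : Λ → ℂ) : ‖ex0 Λ u‖ ^ 2 = ∑ y, ‖u y‖ ^ 2 := by
  rw [sq_eq_sum _ Λ (fun x hx => ex0_out Λ u x hx),
    ← Finset.sum_coe_sort Λ fun x => ‖ex0 Λ u x‖ ^ 2]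
  refine Finset.sum_congr rfl fun y _ => ?_
  rw [ex0_in]

theorem ex0_inner (Λ : Finset (Fin d → ℤ)) (u : Λ → ℂ) (w : l2 (Fin d → ℤ)) :
    inner ℂ w (ex0 Λ u) = ∑ y, u y * (starRingEnd ℂ) (w y) := by
  unfold ex0
  rw [inner_sum]
  refine Finset.sum_congr rfl fun y _ => ?_
  rw [lp.inner_single_right, RCLike.inner_apply]

theorem ex0_pj (hd : S_DIA) (Λ : Finset (Fin d → ℤ)) (u : l2 (Fin d → ℤ)) :
    ex0 Λ (fun y => u y) = pj Λ u := by
  ext x
  rw [pj_apply hd]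
  by_cases hx : x ∈ Λ
  · rw [if_pos hx]
    exact ex0_in Λ (fun y => u y) ⟨x, hx⟩
  · rw [if_neg hx, ex0_out Λ _ x hx]

section

variable (hd : S_DIA) (ho : S_OPR)

include hd ho

theorem chL_eq (q : C(UnitAddTorus (Fin d), ℂ)) (Λ : Finset (Fin d → ℤ))
    (v : (Fin d → ℤ) → ℝ) (k : ℕ) (u : l2 (Fin d → ℤ)) :
    chL q Λ v k u = ex0 Λ (xk (TL q Λ) (fun y => u y) (sL Λ v) k) := by
  ext x
  by_cases hx : x ∈ Λ
  · rw [(chL_coord hd ho q Λ v u k x).2 hx]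
    exact (ex0_in Λ (xk (TL q Λ) (fun y => u y) (sL Λ v) k) ⟨x, hx⟩).symm
  · rw [(chL_coord hd ho q Λ v u k x).1 hx, ex0_out Λ _ x hx]

theorem chL_meas {E : Type} [TopologicalSpace E] (q : C(UnitAddTorus (Fin d), ℂ))
    (Λ : Finset (Fin d → ℤ)) (k : ℕ) (u : l2 (Fin d → ℤ)) (F : l2 (Fin d → ℤ) → E) :
    StronglyMeasurable fun v => F (chL q Λ v k u) := by
  have h1 : (fun v => F (chL q Λ v k u)) =
      (fun ξ => F (ex0 Λ (xk (TL q Λ) (fun y => u y) ξ k))) ∘ sL Λ := by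
    funext v
    rw [chL_eq hd ho]
    rfl
  rw [h1]
  exact StronglyMeasurable.of_discrete.comp_measurable (sL_meas Λ)

theorem chL_int {E : Type} [NormedAddCommGroup E] [NormedSpace ℝ E] [CompleteSpace E]
    {α : ℝ} (hα : 0 < α) (q : C(UnitAddTorus (Fin d), ℂ))
    (Λ : Finset (Fin d → ℤ)) (k : ℕ) (u : l2 (Fin d → ℤ)) (F : l2 (Fin d → ℤ) → E) :
    ∫ v, F (chL q Λ v k u) ∂(Pn (tp α) (Fin d → ℤ)) =
      ((2 : ℝ) ^ Fintype.card Λ)⁻¹ • ∑ ξ, F (ex0 Λ (xk (TL q Λ) (fun y => u y) ξ k)) := by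
  rw [← int_fin hα Λ (fun ξ => F (ex0 Λ (xk (TL q Λ) (fun y => u y) ξ k)))]
  congr 1
  funext v
  rw [chL_eq hd ho]

theorem lim_int {E : Type} [NormedAddCommGroup E] [NormedSpace ℝ E] (μ : Measure ((Fin d → ℤ) → ℝ))
    [IsProbabilityMeasure μ] (q : C(UnitAddTorus (Fin d), ℂ)) (k : ℕ) (u : l2 (Fin d → ℤ))
    (F : l2 (Fin d → ℤ) → E) (hF : Continuous F) (C : ℝ)
    (hC : ∀ x, ‖x‖ ≤ ‖q‖ ^ k * ‖u‖ → ‖F x‖ ≤ C) :
    Tendsto (fun Λ => ∫ v, F (chL q Λ v k u) ∂μ) atTop (𝓝 (∫ v, F (ch q v k u) ∂μ)) := by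
  refine tendsto_integral_filter_of_dominated_convergence (fun _ => C) ?_ ?_
    (integrable_const C) ?_
  · exact Eventually.of_forall fun Λ => (chL_meas hd ho q Λ k u F).aestronglyMeasurable
  · refine Eventually.of_forall fun Λ => Eventually.of_forall fun v => ?_
    exact hC _ (chL_norm hd ho q le_rfl Λ v k u)
  · refine Eventually.of_forall fun v => ?_
    exact (hF.tendsto _).comp (chL_tendsto hd q v u k)

theorem ch_meas (q : C(UnitAddTorus (Fin d), ℂ)) (k : ℕ) (u : l2 (Fin d → ℤ))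
    (x : Fin d → ℤ) : Measurable fun v => ch q v k u x := by
  refine measurable_of_tendsto_metrizable' (atTop : Filter (Finset (Fin d → ℤ)))
    (f := fun Λ v => chL q Λ v k u x) (fun Λ => ?_) ?_
  · exact (chL_meas hd ho q Λ k u (fun g => g x)).measurable
  · rw [tendsto_pi_nhds]
    intro v
    have h1 := chL_tendsto hd q v u k
    have h2 : Continuous (fun g : l2 (Fin d → ℤ) => g x) :=
      (lp.lipschitzWith_one_eval 2 x).continuous
    exact (h2.tendsto _).comp h1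

variable (h1 : S_CHC) (h2 : S_CHW)

include h2

theorem mean_inner {α : ℝ} (hα : 0 < α) (q : C(UnitAddTorus (Fin d), ℂ))
    (Λ : Finset (Fin d → ℤ)) (k : ℕ) (u w : l2 (Fin d → ℤ)) :
    ∫ v, inner ℂ w (chL q Λ v k u) ∂(Pn (tp α) (Fin d → ℤ)) =
      ∑ y : Λ, gc (TL q Λ) (fun y => u y) k y ∅ * (starRingEnd ℂ) (w y) := by
  rw [chL_int hd ho hα q Λ k u (fun g => inner ℂ w g)]
  simp only [ex0_inner]
  rw [Finset.sum_comm, Finset.smul_sum]
  refine Finset.sum_congr rfl fun y _ => ?_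
  rw [← (h2 Λ (TL q Λ) (fun y => u y) k y).2, ← Finset.sum_mul, Complex.real_smul]
  push_cast
  ring

theorem mean_sq {α : ℝ} (hα : 0 < α) (q : C(UnitAddTorus (Fin d), ℂ))
    (Λ : Finset (Fin d → ℤ)) (k : ℕ) (u : l2 (Fin d → ℤ)) :
    ∫ v, ‖chL q Λ v k u‖ ^ 2 ∂(Pn (tp α) (Fin d → ℤ)) =
      ∑ y : Λ, ∑ S : Finset Λ, ‖gc (TL q Λ) (fun y => u y) k y S‖ ^ 2 := by
  rw [chL_int hd ho hα q Λ k u (fun g => ‖g‖ ^ 2)]
  simp only [ex0_norm]
  rw [Finset.sum_comm, Finset.smul_sum]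
  refine Finset.sum_congr rfl fun y _ => ?_
  rw [← (h2 Λ (TL q Λ) (fun y => u y) k y).1, smul_eq_mul]
  ring

end

theorem main (hd : S_DIA) (ho : S_OPR) (h1 : S_CHC) (h2 : S_CHW) : S_CHI := by
  intro d q α M θ b κ hα hb hκ hM hθ hb1 hbM hbM2 hκ2
  have hM0 : 0 ≤ M := (norm_nonneg _).trans hM
  have hfin : ∀ (Λ : Finset (Fin d → ℤ)) (f : Λ → ℂ) (k : ℕ), 1 ≤ k →
      ∑ y, ∑ S : Finset Λ, ‖gc (TL q Λ) f k y S‖ ^ 2 ≤
        2 * ((2 * k * κ) ^ k) ^ 2 * ∑ y, ‖f y‖ ^ 2 ∧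
      ∑ y, ‖gc (TL q Λ) f k y ∅‖ ^ 2 ≤ (2 * b * (2 * k * κ) ^ (k - 1)) ^ 2 * ∑ y, ‖f y‖ ^ 2 := by
    intro Λ f k hk
    exact h1 Λ (TL q Λ) M θ b κ hM0 hb hκ (TL_op ho q hM Λ)
      (fun x => (TL_row q Λ x).trans hθ) (fun y => (TL_col q Λ y).trans hθ)
      (fun x y => (coeff_le q _).trans hb1) hbM hbM2 hκ2 f k hk
  have husum : ∀ (Λ : Finset (Fin d → ℤ)) (u : l2 (Fin d → ℤ)),
      ∑ y : Λ, ‖u y‖ ^ 2 ≤ ‖u‖ ^ 2 := by
    intro Λ u
    rw [Finset.sum_coe_sort Λ fun y => ‖u y‖ ^ 2]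
    exact sum_sq_le u Λ
  have hinner : ∀ (k : ℕ) (u w : l2 (Fin d → ℤ)),
      Tendsto (fun Λ => ∫ v, inner ℂ w (chL q Λ v k u) ∂(Pn (tp α) (Fin d → ℤ))) atTop
        (𝓝 (∫ v, inner ℂ w (ch q v k u) ∂(Pn (tp α) (Fin d → ℤ)))) := by
    intro k u w
    refine lim_int hd ho _ q k u (fun g => inner ℂ w g) (by fun_prop)
      (‖w‖ * (‖q‖ ^ k * ‖u‖)) ?_
    intro x hx
    exact (norm_inner_le_norm _ _).trans (mul_le_mul_of_nonneg_left hx (norm_nonneg _))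
  refine ⟨fun k u x => ch_meas hd ho q k u x, ?_, ?_, ?_, ?_⟩
  · intro k u hk
    have hlim := lim_int hd ho (Pn (tp α) (Fin d → ℤ)) q k u (fun g => ‖g‖ ^ 2) (by fun_prop)
      ((‖q‖ ^ k * ‖u‖) ^ 2) (by
        intro x hx
        rw [Real.norm_of_nonneg (by positivity)]
        exact pow_le_pow_left₀ (norm_nonneg _) hx 2)
    refine le_of_tendsto' hlim fun Λ => ?_
    rw [mean_sq hd ho h2 hα]
    refine ((hfin Λ (fun y => u y) k hk).1).trans ?_
    exact mul_le_mul_of_nonneg_left (husum Λ u) (by positivity)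
  · intro k u w hk
    have hlim := (hinner k u w).norm
    refine le_of_tendsto' hlim fun Λ => ?_
    rw [mean_inner hd ho h2 hα]
    refine (norm_sum_le _ _).trans ?_
    simp only [norm_mul, RCLike.norm_conj]
    have hA := (hfin Λ (fun y => u y) k hk).2
    have hcs := Finset.sum_mul_sq_le_sq_mul_sq Finset.univ
      (fun y : Λ => ‖gc (TL q Λ) (fun y => u y) k y ∅‖) (fun y : Λ => ‖w y‖)
    set B : ℝ := 2 * b * (2 * k * κ) ^ (k - 1) with hB
    have hB0 : 0 ≤ B := by rw [hB]; positivity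
    have h3 : (∑ y : Λ, ‖gc (TL q Λ) (fun y => u y) k y ∅‖ * ‖w y‖) ^ 2 ≤
        (B * (‖w‖ * ‖u‖)) ^ 2 := by
      refine hcs.trans ?_
      have h4 : (∑ y : Λ, ‖gc (TL q Λ) (fun y => u y) k y ∅‖ ^ 2) ≤ B ^ 2 * ‖u‖ ^ 2 :=
        hA.trans (mul_le_mul_of_nonneg_left (husum Λ u) (by positivity))
      calc _ ≤ (B ^ 2 * ‖u‖ ^ 2) * ‖w‖ ^ 2 :=
            mul_le_mul h4 (husum Λ w) (by positivity) (by positivity)
        _ = _ := by ring
    exact (abs_le_of_sq_le_sq' h3 (by positivity)).2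
  · intro u w
    have hlim := hinner 1 u w
    have hg : ∀ Λ : Finset (Fin d → ℤ),
        ∫ v, inner ℂ w (chL q Λ v 1 u) ∂(Pn (tp α) (Fin d → ℤ)) =
          (∫ k, q k) * inner ℂ w (pj Λ u) := by
      intro Λ
      rw [mean_inner hd ho h2 hα, ← ex0_pj hd, ex0_inner, Finset.mul_sum]
      refine Finset.sum_congr rfl fun y _ => ?_
      have h3 : gc (TL q Λ) (fun y => u y) 1 y ∅ = (∫ k, q k) * u y := by
        have h4 : gc (TL q Λ) (fun y => u y) 1 y ∅ =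
            ∑ y', TL q Λ y y' * (if symmDiff ∅ {y} = ({y'} : Finset Λ) then u y' else 0) := rfl
        rw [h4, Finset.sum_eq_single y]
        · have h5 : symmDiff ∅ {y} = ({y} : Finset Λ) := by
            rw [← Finset.bot_eq_empty, bot_symmDiff]
          rw [if_pos h5]
          unfold TL
          rw [sub_self, coeff_zero]
        · intro y' _ hy'
          rw [if_neg, mul_zero]
          rw [← Finset.bot_eq_empty, bot_symmDiff]
          intro h6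
          exact hy' (Finset.singleton_injective h6).symm
        · intro h6; exact absurd (Finset.mem_univ y) h6
      rw [h3]
      ring
    simp only [hg] at hlim
    have h5 : Tendsto (fun Λ : Finset (Fin d → ℤ) => (∫ k, q k) * inner ℂ w (pj Λ u)) atTop
        (𝓝 ((∫ k, q k) * inner ℂ w u)) := by
      have h6 : Continuous (fun g : l2 (Fin d → ℤ) => (∫ k, q k) * inner ℂ w g) := by fun_prop
      exact (h6.tendsto _).comp (pj_tendsto hd u)
    exact tendsto_nhds_unique hlim h5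
  · intro u w
    have hlim := hinner 0 u w
    have hg : ∀ Λ : Finset (Fin d → ℤ),
        ∫ v, inner ℂ w (chL q Λ v 0 u) ∂(Pn (tp α) (Fin d → ℤ)) = 0 := by
      intro Λ
      rw [mean_inner hd ho h2 hα]
      refine Finset.sum_eq_zero fun y _ => ?_
      have h3 : gc (TL q Λ) (fun y => u y) 0 y ∅ = 0 := by
        have h4 : gc (TL q Λ) (fun y => u y) 0 y ∅ =
            if (∅ : Finset Λ) = {y} then u y else 0 := rfl
        rw [h4, if_neg]
        exact (Finset.singleton_ne_empty y).symm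
      rw [h3, zero_mul]
    simp only [hg] at hlim
    exact (tendsto_nhds_unique hlim tendsto_const_nhds)

end

end Pool.Agent.N455.HB
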