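import Pool.Agent.N659.HB.Stm
import Pool.Agent.W792.LL.Stm

/-!
Truncation of the random sign expansion to finite sets.
-/

namespace Pool.Agent.N455.HB

open MeasureTheory Filter Pool.Agent.W792.LL Pool.Agent.W792.WA Pool.Agent.N659.HB
open scoped Topology ENNReal

noncomputable section

theorem hasSum_sq {Γ : Type} (u : l2 Γ) : HasSum (fun x => ‖u x‖ ^ 2) (‖u‖ ^ 2) := by
  have h := lp.hasSum_norm (p := 2) (by norm_num) u
  simpa using h

theorem sum_sq_le {Γ : Type} (u : l2 Γ) (s : Finset Γ) : ∑ x ∈ s, ‖u x‖ ^ 2 ≤ ‖u‖ ^ 2 :=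
  sum_le_hasSum s (fun _ _ => by positivity) (hasSum_sq u)

theorem sq_eq_sum {Γ : Type} (u : l2 Γ) (s : Finset Γ) (h : ∀ x, x ∉ s → u x = 0) :
    ‖u‖ ^ 2 = ∑ x ∈ s, ‖u x‖ ^ 2 := by
  refine (hasSum_sq u).unique (hasSum_sum_of_ne_finset_zero fun x hx => ?_)
  rw [h x hx]
  simp

variable {d : ℕ}

/-- the coordinate projection -/
def pj (Λ : Finset (Fin d → ℤ)) : l2 (Fin d → ℤ) →L[ℂ] l2 (Fin d → ℤ) :=
  dia fun x => if x ∈ Λ then 1 else 0

section

variable (hd : S_DIA)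

include hd

theorem pj_apply (Λ : Finset (Fin d → ℤ)) (u : l2 (Fin d → ℤ)) (x : Fin d → ℤ) :
    pj Λ u x = if x ∈ Λ then u x else 0 := by
  have h1 := (hd (Fin d → ℤ) (fun x => if x ∈ Λ then 1 else 0)
    (fun x => by split_ifs <;> simp)).1 u x
  unfold pj
  rw [h1]
  split_ifs <;> simp

theorem pj_norm (Λ : Finset (Fin d → ℤ)) (u : l2 (Fin d → ℤ)) : ‖pj Λ u‖ ≤ ‖u‖ := by
  have h1 := (hd (Fin d → ℤ) (fun x => if x ∈ Λ then 1 else 0)
    (fun x => by split_ifs <;> simp)).2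
  have h2 := (pj Λ).le_opNorm u
  refine h2.trans ?_
  exact mul_le_of_le_one_left (norm_nonneg _) h1

omit hd in
theorem sgn1_norm' (x : ℝ) : ‖sgn1 x‖ = 1 := by
  unfold sgn1; split_ifs <;> simp

theorem xi_apply (v : (Fin d → ℤ) → ℝ) (u : l2 (Fin d → ℤ)) (x : Fin d → ℤ) :
    xi v u x = sgn1 (v x) * u x :=
  (hd (Fin d → ℤ) (fun x => sgn1 (v x)) (fun x => (sgn1_norm' _).le)).1 u x

theorem xi_norm (v : (Fin d → ℤ) → ℝ) (u : l2 (Fin d → ℤ)) : ‖xi v u‖ ≤ ‖u‖ := by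
  have h1 := (hd (Fin d → ℤ) (fun x => sgn1 (v x)) (fun x => (sgn1_norm' _).le)).2
  refine ((xi v).le_opNorm u).trans ?_
  exact mul_le_of_le_one_left (norm_nonneg _) h1

theorem pj_tendsto (u : l2 (Fin d → ℤ)) :
    Tendsto (fun Λ : Finset (Fin d → ℤ) => pj Λ u) atTop (𝓝 u) := by
  have h1 : (fun Λ : Finset (Fin d → ℤ) => pj Λ u) =
      fun Λ => ∑ x ∈ Λ, lp.single 2 x (u x) := by
    funext Λ
    ext y
    rw [pj_apply hd, lp.coeFn_sum, Finset.sum_apply]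
    simp only [lp.coeFn_single]
    by_cases hy : y ∈ Λ
    · rw [if_pos hy, Finset.sum_eq_single y]
      · simp
      · intro b _ hb
        rw [Pi.single_eq_of_ne (Ne.symm hb)]
      · intro h; exact absurd hy h
    · rw [if_neg hy, Finset.sum_eq_zero]
      intro b hb
      rw [Pi.single_eq_of_ne]
      rintro rfl
      exact hy hb
  rw [h1]
  exact lp.hasSum_single (by norm_num) u

theorem pj_tendsto' (g : Finset (Fin d → ℤ) → l2 (Fin d → ℤ)) (u : l2 (Fin d → ℤ))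
    (hg : Tendsto g atTop (𝓝 u)) :
    Tendsto (fun Λ : Finset (Fin d → ℤ) => pj Λ (g Λ)) atTop (𝓝 u) := by
  have h1 : Tendsto (fun Λ => pj Λ (g Λ - u)) atTop (𝓝 0) := by
    rw [tendsto_zero_iff_norm_tendsto_zero]
    refine squeeze_zero (fun _ => norm_nonneg _) (fun Λ => pj_norm hd Λ (g Λ - u)) ?_
    have h2 : Tendsto (fun Λ => g Λ - u) atTop (𝓝 0) := by
      have := hg.sub (tendsto_const_nhds (x := u))
      rwa [sub_self] at this
    exact tendsto_zero_iff_norm_tendsto_zero.1 h2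
  have h3 := h1.add (pj_tendsto hd u)
  rw [zero_add] at h3
  refine h3.congr fun Λ => ?_
  rw [map_sub, sub_add_cancel]

end

/-- the truncated expansion -/
def chL (q : C(UnitAddTorus (Fin d), ℂ)) (Λ : Finset (Fin d → ℤ)) (v : (Fin d → ℤ) → ℝ) (k : ℕ) :
    l2 (Fin d → ℤ) →L[ℂ] l2 (Fin d → ℤ) :=
  (xi v * (pj Λ * (opr q * pj Λ))) ^ k * (xi v * pj Λ)

theorem chL_zero (q : C(UnitAddTorus (Fin d), ℂ)) (Λ : Finset (Fin d → ℤ))
    (v : (Fin d → ℤ) → ℝ) (u : l2 (Fin d → ℤ)) : chL q Λ v 0 u = xi v (pj Λ u) := by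
  unfold chL
  rw [pow_zero, one_mul]
  rfl

theorem chL_succ (q : C(UnitAddTorus (Fin d), ℂ)) (Λ : Finset (Fin d → ℤ))
    (v : (Fin d → ℤ) → ℝ) (k : ℕ) (u : l2 (Fin d → ℤ)) :
    chL q Λ v (k + 1) u = xi v (pj Λ (opr q (pj Λ (chL q Λ v k u)))) := by
  unfold chL
  rw [pow_succ', mul_assoc]
  rfl

theorem ch_zero (q : C(UnitAddTorus (Fin d), ℂ)) (v : (Fin d → ℤ) → ℝ) (u : l2 (Fin d → ℤ)) :
    ch q v 0 u = xi v u := by
  unfold ch
  rw [pow_zero, one_mul]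

theorem ch_succ (q : C(UnitAddTorus (Fin d), ℂ)) (v : (Fin d → ℤ) → ℝ) (k : ℕ)
    (u : l2 (Fin d → ℤ)) : ch q v (k + 1) u = xi v (opr q (ch q v k u)) := by
  unfold ch
  rw [pow_succ', mul_assoc]
  rfl

section

variable (hd : S_DIA)

include hd

theorem chL_tendsto (q : C(UnitAddTorus (Fin d), ℂ)) (v : (Fin d → ℤ) → ℝ) (u : l2 (Fin d → ℤ))
    (k : ℕ) : Tendsto (fun Λ => chL q Λ v k u) atTop (𝓝 (ch q v k u)) := by
  induction k with
  | zero =>
    simp only [chL_zero, ch_zero]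
    exact ((xi v).continuous.tendsto _).comp (pj_tendsto hd u)
  | succ k ih =>
    simp only [chL_succ, ch_succ]
    refine ((xi v).continuous.tendsto _).comp (pj_tendsto' hd _ _ ?_)
    exact ((opr q).continuous.tendsto _).comp (pj_tendsto' hd _ _ ih)

variable (ho : S_OPR)

include ho

theorem chL_norm (q : C(UnitAddTorus (Fin d), ℂ)) {M : ℝ} (hM : ‖q‖ ≤ M)
    (Λ : Finset (Fin d → ℤ)) (v : (Fin d → ℤ) → ℝ) (k : ℕ) (u : l2 (Fin d → ℤ)) :
    ‖chL q Λ v k u‖ ≤ M ^ k * ‖u‖ := by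
  have hM0 : 0 ≤ M := (norm_nonneg _).trans hM
  induction k with
  | zero =>
    rw [chL_zero, pow_zero, one_mul]
    exact (xi_norm hd _ _).trans (pj_norm hd _ _)
  | succ k ih =>
    rw [chL_succ]
    refine (xi_norm hd _ _).trans ((pj_norm hd _ _).trans (((opr q).le_opNorm _).trans ?_))
    rw [pow_succ', mul_assoc]
    exact mul_le_mul ((ho d q q).2.1.trans hM) ((pj_norm hd _ _).trans ih) (norm_nonneg _) hM0

/-- the kernel on a finite set -/
def TL (q : C(UnitAddTorus (Fin d), ℂ)) (Λ : Finset (Fin d → ℤ)) : Λ → Λ → ℂ :=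
  fun x y => UnitAddTorus.mFourierCoeff q (x.1 - y.1)

/-- the signs on a finite set -/
def sL (Λ : Finset (Fin d → ℤ)) (v : (Fin d → ℤ) → ℝ) : Λ → Bool := fun y => decide (0 < v y)

omit hd ho in
theorem sg_sL (Λ : Finset (Fin d → ℤ)) (v : (Fin d → ℤ) → ℝ) (y : Λ) :
    sg (sL Λ v y) = sgn1 (v y) := by
  unfold sg sL sgn1
  by_cases h : 0 < v y <;> simp [h]

omit hd in
theorem opr_fin (q : C(UnitAddTorus (Fin d), ℂ)) (Λ : Finset (Fin d → ℤ))
    (g : l2 (Fin d → ℤ)) (hg : ∀ x, x ∉ Λ → g x = 0) (x : Fin d → ℤ) :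
    opr q g x = ∑ y : Λ, UnitAddTorus.mFourierCoeff q (x - y.1) * g y := by
  rw [((ho d q q).1 g x).2, tsum_eq_sum (s := Λ)]
  · exact (Finset.sum_coe_sort Λ fun y => UnitAddTorus.mFourierCoeff q (x - y) * g y).symm
  · intro y hy
    rw [hg y hy, mul_zero]

theorem chL_coord (q : C(UnitAddTorus (Fin d), ℂ)) (Λ : Finset (Fin d → ℤ))
    (v : (Fin d → ℤ) → ℝ) (u : l2 (Fin d → ℤ)) (k : ℕ) : ∀ y : Fin d → ℤ,
    (y ∉ Λ → chL q Λ v k u y = 0) ∧ ∀ h : y ∈ Λ, chL q Λ v k u y =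
      xk (TL q Λ) (fun y => u y) (sL Λ v) k ⟨y, h⟩ := by
  induction k with
  | zero =>
    intro y
    rw [chL_zero, xi_apply hd, pj_apply hd]
    refine ⟨fun h => by rw [if_neg h, mul_zero], fun h => ?_⟩
    rw [if_pos h]
    unfold xk
    rw [sg_sL]
  | succ k ih =>
    intro y
    rw [chL_succ, xi_apply hd, pj_apply hd]
    refine ⟨fun h => by rw [if_neg h, mul_zero], fun h => ?_⟩
    rw [if_pos h]
    unfold xk
    rw [sg_sL]
    congr 1
    rw [opr_fin ho q Λ]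
    · refine Finset.sum_congr rfl fun y' _ => ?_
      rw [pj_apply hd, if_pos y'.2, (ih y').2 y'.2]
      rfl
    · intro x hx
      rw [pj_apply hd, if_neg hx]

end

end

end Pool.Agent.N455.HB
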