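import Pool.Agent.N455.HB.Chi1

/-!
The law of the signs on a finite set; estimates for the kernel.
-/

namespace Pool.Agent.N455.HB

open MeasureTheory Filter Pool.Agent.W792.LL Pool.Agent.W792.WA Pool.Agent.N659.HB
open scoped Topology ENNReal

noncomputable section

variable {d : ℕ}

/-- the sign -/
def sb (x : ℝ) : Bool := decide (0 < x)

theorem sb_meas : Measurable sb := by
  apply measurable_to_bool
  have h1 : sb ⁻¹' {true} = Set.Ioi 0 := by
    ext x
    simp [sb]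
  rw [h1]
  exact measurableSet_Ioi

theorem sL_meas (Λ : Finset (Fin d → ℤ)) : Measurable (sL Λ) := by
  rw [measurable_pi_iff]
  intro y
  exact sb_meas.comp (measurable_pi_apply y.1)

theorem tp_sb {α : ℝ} (hα : 0 < α) (b : Bool) : (tp α).map sb {b} = 1 / 2 := by
  rw [Measure.map_apply sb_meas (MeasurableSet.singleton b)]
  unfold tp
  rw [Measure.add_apply, Measure.smul_apply, Measure.smul_apply,
    Measure.dirac_apply' _ (sb_meas (MeasurableSet.singleton b)),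
    Measure.dirac_apply' _ (sb_meas (MeasurableSet.singleton b))]
  have h1 : sb α = true := by simp [sb, hα]
  have h2 : sb (-α) = false := by
    have : ¬ (0 < -α) := by linarith
    simp [sb, this]
  cases b
  · rw [Set.indicator_of_notMem, Set.indicator_of_mem]
    · simp
    · exact h2
    · intro h
      have h3 : sb α = false := h
      rw [h1] at h3
      exact Bool.noConfusion h3
  · rw [Set.indicator_of_mem, Set.indicator_of_notMem]
    · simp
    · intro h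
      have h3 : sb (-α) = true := h
      rw [h2] at h3
      exact Bool.noConfusion h3
    · exact h1

theorem int_fin {E : Type} [NormedAddCommGroup E] [NormedSpace ℝ E] [CompleteSpace E] {α : ℝ}
    (hα : 0 < α) (Λ : Finset (Fin d → ℤ)) (F : (Λ → Bool) → E) :
    ∫ v, F (sL Λ v) ∂(Pn (tp α) (Fin d → ℤ)) = ((2 : ℝ) ^ Fintype.card Λ)⁻¹ • ∑ ξ, F ξ := by
  have hp : IsProbabilityMeasure ((tp α).map sb) :=
    Measure.isProbabilityMeasure_map sb_meas.aemeasurable
  have hmap : (Pn (tp α) (Fin d → ℤ)).map (sL Λ) =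
      Measure.pi (fun _ : Λ => (tp α).map sb) := by
    have h1 : sL Λ = (fun (x : Λ → ℝ) i => sb (x i)) ∘ Λ.restrict := rfl
    have hm : Measurable (fun (x : Λ → ℝ) i => sb (x i)) :=
      measurable_pi_iff.2 fun y => sb_meas.comp (measurable_pi_apply y)
    rw [h1, ← Measure.map_map hm (Finset.measurable_restrict Λ)]
    unfold Pn
    rw [Measure.infinitePi_map_restrict]
    exact Measure.pi_map_pi (fun _ => sb_meas.aemeasurable)
  have h2 : ∫ v, F (sL Λ v) ∂(Pn (tp α) (Fin d → ℤ)) =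
      ∫ ξ, F ξ ∂((Pn (tp α) (Fin d → ℤ)).map (sL Λ)) := by
    rw [integral_map (sL_meas Λ).aemeasurable]
    exact (StronglyMeasurable.of_discrete (f := F)).aestronglyMeasurable
  rw [h2, hmap, integral_fintype]
  · rw [Finset.smul_sum]
    refine Finset.sum_congr rfl fun ξ _ => ?_
    congr 1
    rw [measureReal_def, Measure.pi_singleton]
    simp only [tp_sb hα]
    rw [Finset.prod_const, Finset.card_univ]
    simp
  · exact Integrable.of_finite

/-! ### The kernel -/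

/-- the volume of the circle -/
theorem vol_circle : (volume : Measure UnitAddCircle) = AddCircle.haarAddCircle := by
  have h := AddCircle.volume_eq_smul_haarAddCircle (T := (1 : ℝ))
  rw [ENNReal.ofReal_one, one_smul] at h
  exact h

theorem vol_torus : (volume : Measure (UnitAddTorus (Fin d))) =
    Measure.pi (fun _ => AddCircle.haarAddCircle) := by
  rw [volume_pi]
  congr 1
  funext _
  exact vol_circle

section mvol

attribute [local instance] instMeasureSpaceUnitAddCircle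

theorem vol_torus0 : (volume : Measure (UnitAddTorus (Fin d))) =
    Measure.pi (fun _ => AddCircle.haarAddCircle) := rfl

theorem parseval0 (q : C(UnitAddTorus (Fin d), ℂ)) :
    HasSum (fun n => ‖UnitAddTorus.mFourierCoeff q n‖ ^ 2) (∫ k, ‖q k‖ ^ 2) := by
  have hp : IsProbabilityMeasure (volume : Measure (UnitAddTorus (Fin d))) := by
    rw [vol_torus0]; infer_instance
  have h1 := UnitAddTorus.hasSum_sq_mFourierCoeff (q.toLp 2 volume ℂ)
  simp only [UnitAddTorus.mFourierCoeff_toLp] at h1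
  have h2 : ∫ t, ‖(ContinuousMap.toLp 2 volume ℂ q : UnitAddTorus (Fin d) → ℂ) t‖ ^ 2 =
      ∫ k, ‖q k‖ ^ 2 := by
    apply integral_congr_ae
    filter_upwards [ContinuousMap.coeFn_toLp (𝕜 := ℂ) (p := 2) volume q] with t ht
    rw [ht]
  rw [h2] at h1
  exact h1

theorem coeff_le0 (q : C(UnitAddTorus (Fin d), ℂ)) (n : Fin d → ℤ) :
    ‖UnitAddTorus.mFourierCoeff q n‖ ≤ ∫ k, ‖q k‖ := by
  unfold UnitAddTorus.mFourierCoeff
  refine (norm_integral_le_integral_norm _).trans (le_of_eq ?_)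
  congr 1
  funext t
  rw [norm_smul]
  have h1 : ‖UnitAddTorus.mFourier (-n) t‖ = 1 := by
    simp only [UnitAddTorus.mFourier, fourier_apply, ContinuousMap.coe_mk, norm_prod,
      Circle.norm_coe, Finset.prod_const_one]
  rw [h1, one_mul]

theorem coeff_zero0 (q : C(UnitAddTorus (Fin d), ℂ)) :
    UnitAddTorus.mFourierCoeff q 0 = ∫ k, q k := by
  unfold UnitAddTorus.mFourierCoeff
  congr 1
  funext t
  rw [neg_zero, UnitAddTorus.mFourier_zero]
  simp

end mvol

theorem parseval (q : C(UnitAddTorus (Fin d), ℂ)) :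
    HasSum (fun n => ‖UnitAddTorus.mFourierCoeff q n‖ ^ 2) (∫ k, ‖q k‖ ^ 2) := by
  rw [vol_torus]
  exact parseval0 q

theorem coeff_le (q : C(UnitAddTorus (Fin d), ℂ)) (n : Fin d → ℤ) :
    ‖UnitAddTorus.mFourierCoeff q n‖ ≤ ∫ k, ‖q k‖ := by
  rw [vol_torus]
  exact coeff_le0 q n

theorem coeff_zero (q : C(UnitAddTorus (Fin d), ℂ)) :
    UnitAddTorus.mFourierCoeff q 0 = ∫ k, q k := by
  rw [vol_torus]
  exact coeff_zero0 q

theorem TL_row (q : C(UnitAddTorus (Fin d), ℂ)) (Λ : Finset (Fin d → ℤ)) (x : Λ) :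
    ∑ y, ‖TL q Λ x y‖ ^ 2 ≤ ∫ k, ‖q k‖ ^ 2 := by
  unfold TL
  rw [Finset.sum_coe_sort Λ fun y => ‖UnitAddTorus.mFourierCoeff q (x.1 - y)‖ ^ 2]
  have h1 : ∑ y ∈ Λ, ‖UnitAddTorus.mFourierCoeff q (x.1 - y)‖ ^ 2 =
      ∑ z ∈ Λ.image (fun y => x.1 - y), ‖UnitAddTorus.mFourierCoeff q z‖ ^ 2 := by
    rw [Finset.sum_image]
    intro a _ b _ hab
    exact sub_right_injective hab
  rw [h1]
  exact sum_le_hasSum _ (fun _ _ => by positivity) (parseval q)

theorem TL_col (q : C(UnitAddTorus (Fin d), ℂ)) (Λ : Finset (Fin d → ℤ)) (y : Λ) :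
    ∑ x, ‖TL q Λ x y‖ ^ 2 ≤ ∫ k, ‖q k‖ ^ 2 := by
  unfold TL
  rw [Finset.sum_coe_sort Λ fun x => ‖UnitAddTorus.mFourierCoeff q (x - y.1)‖ ^ 2]
  have h1 : ∑ x ∈ Λ, ‖UnitAddTorus.mFourierCoeff q (x - y.1)‖ ^ 2 =
      ∑ z ∈ Λ.image (fun x => x - y.1), ‖UnitAddTorus.mFourierCoeff q z‖ ^ 2 := by
    rw [Finset.sum_image]
    intro a _ b _ hab
    exact sub_left_injective hab
  rw [h1]
  exact sum_le_hasSum _ (fun _ _ => by positivity) (parseval q)

/-- extension by zero -/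
def ex0 (Λ : Finset (Fin d → ℤ)) (u : Λ → ℂ) : l2 (Fin d → ℤ) :=
  ∑ y : Λ, lp.single 2 y.1 (u y)

theorem ex0_in (Λ : Finset (Fin d → ℤ)) (u : Λ → ℂ) (y : Λ) : ex0 Λ u y = u y := by
  unfold ex0
  rw [lp.coeFn_sum, Finset.sum_apply]
  simp only [lp.coeFn_single]
  rw [Finset.sum_eq_single y]
  · simp
  · intro b _ hb
    rw [Pi.single_eq_of_ne]
    intro h
    exact hb (Subtype.ext h.symm)
  · intro h; exact absurd (Finset.mem_univ y) h

theorem ex0_out (Λ : Finset (Fin d → ℤ)) (u : Λ → ℂ) (y : Fin d → ℤ) (hy : y ∉ Λ) :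
    ex0 Λ u y = 0 := by
  unfold ex0
  rw [lp.coeFn_sum, Finset.sum_apply]
  simp only [lp.coeFn_single]
  rw [Finset.sum_eq_zero]
  intro b _
  rw [Pi.single_eq_of_ne]
  rintro rfl
  exact hy b.2

theorem TL_op (ho : S_OPR) (q : C(UnitAddTorus (Fin d), ℂ)) {M : ℝ} (hM : ‖q‖ ≤ M)
    (Λ : Finset (Fin d → ℤ)) (u : Λ → ℂ) :
    ∑ x, ‖∑ y, TL q Λ x y * u y‖ ^ 2 ≤ M ^ 2 * ∑ y, ‖u y‖ ^ 2 := by
  have hM0 : 0 ≤ M := (norm_nonneg _).trans hM
  have h1 : ∀ x : Λ, ∑ y, TL q Λ x y * u y = opr q (ex0 Λ u) x := by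
    intro x
    rw [opr_fin ho q Λ (ex0 Λ u) (fun x hx => ex0_out Λ u x hx)]
    refine Finset.sum_congr rfl fun y _ => ?_
    rw [ex0_in]
    rfl
  simp only [h1]
  rw [Finset.sum_coe_sort Λ fun x => ‖opr q (ex0 Λ u) x‖ ^ 2]
  refine (sum_sq_le _ _).trans ?_
  have h2 : ‖ex0 Λ u‖ ^ 2 = ∑ y, ‖u y‖ ^ 2 := by
    rw [sq_eq_sum _ Λ (fun x hx => ex0_out Λ u x hx),
      ← Finset.sum_coe_sort Λ fun x => ‖ex0 Λ u x‖ ^ 2]
    refine Finset.sum_congr rfl fun y _ => ?_
    rw [ex0_in]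
  rw [← h2, ← mul_pow]
  have h3 : ‖opr q (ex0 Λ u)‖ ≤ M * ‖ex0 Λ u‖ := by
    refine ((opr q).le_opNorm _).trans ?_
    exact mul_le_mul_of_nonneg_right ((ho d q q).2.1.trans hM) (norm_nonneg _)
  exact pow_le_pow_left₀ (norm_nonneg _) h3 2

end

end Pool.Agent.N455.HB
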